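import Pool.Agent.H45.CG.Iface3
import Pool.Agent.H45.CG.Dstep
import Pool.Graph.R_seed8.H375R2.RC.DECOMP
import Pool.Graph.R_seed8.H20R2.RC.FR

/-! Parts KILL and KILLH of the project CG: once the relative rank is less than `1 / dim`, there is
a gap. -/

set_option autoImplicit false

namespace CG80
open RC14 RC852 TE852 LL14 LG45 CG45 Finset Equiv Filter
open scoped InnerProductSpace

section
variable {G : Type*} [Group G]
variable {V : Type*} [NormedAddCommGroup V] [InnerProductSpace ℂ V]

lemma En_smul {k : ℕ} (ρ : G →* (V ≃ₗᵢ[ℂ] V)) (x : Fin k → G) (c : ℂ) (v : V) :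
    En ρ x (c • v) = ‖c‖ ^ 2 * En ρ x v := by
  unfold En
  rw [Finset.mul_sum]
  refine Finset.sum_congr rfl fun i _ => ?_
  rw [map_smul, ← smul_sub, norm_smul, mul_pow]

/-- the gap on a subspace from the gap on its irreducible components -/
lemma gap_of_irr [Fintype G] [FiniteDimensional ℂ V] {k : ℕ} (ρ : G →* (V ≃ₗᵢ[ℂ] V))
    (x : Fin k → G) (M : Submodule ℂ V) (hM : Inv ρ M) (t δ : ℝ)
    (h : ∀ W : Submodule ℂ V, Irr ρ W → W ≤ M → NRK W (En ρ x) t δ)
    (hd : ∀ W : Submodule ℂ V, W ≤ M → δ * Module.finrank ℂ W < 1) :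
    ∀ v ∈ M, t * ‖v‖ ^ 2 ≤ En ρ x v := by
  obtain ⟨N, W, -, hW, hdec⟩ := DECOMP ρ M hM
  obtain ⟨r, y, w, hw, hE⟩ := IsEn.en ρ x
  intro v hv
  rw [hE v]
  refine hdec r y w t hw (fun i u hu => ?_) v hv
  rw [← hE u]
  exact (h (W i) (hW i).1 (hW i).2).gap (En_smul ρ x) (hd (W i) (hW i).2) u hu

end

theorem part_KILL : CG45.StmtKILL := by
  intro n r R k x t B lam hn hB hlam h1 h2 j hj1 hjR
  rcases le_or_gt j r with hjr | hjr
  · exact h1 j hj1 hjr
  · have hn0 : (0 : ℝ) < n := by positivity
    have hn2 : (2 : ℝ) ≤ n := by exact_mod_cast hn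
    have hlog : 0 < Real.log n := Real.log_pos (by linarith)
    refine gap_of_irr (repA j n) x (Lvl j n) (Lvl_inv j n) t (B * Real.exp (-(lam * j)))
      (h2 j hjr hjR) (fun W _ => ?_)
    have hf : (Module.finrank ℂ W : ℝ) ≤ (n : ℝ) ^ j := by exact_mod_cast finrank_le_pow W
    have hj : (1 : ℝ) ≤ j := by exact_mod_cast hj1
    have e1 : (n : ℝ) ^ j = Real.exp (j * Real.log n) := by
      rw [Real.exp_nat_mul, Real.exp_log hn0]
    have e2 : Real.exp (-(lam * j)) ≤ Real.exp (-(3 * (j * Real.log n))) := by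
      apply Real.exp_le_exp.2
      nlinarith
    rcases le_or_gt B 0 with hB0 | hB0
    · have : B * Real.exp (-(lam * j)) * (Module.finrank ℂ W : ℝ) ≤ 0 := by
        have h5 : B * Real.exp (-(lam * j)) ≤ 0 :=
          mul_nonpos_of_nonpos_of_nonneg hB0 (Real.exp_pos _).le
        exact mul_nonpos_of_nonpos_of_nonneg h5 (Nat.cast_nonneg _)
      linarith
    · calc B * Real.exp (-(lam * j)) * (Module.finrank ℂ W : ℝ)
          ≤ n * Real.exp (-(3 * (j * Real.log n))) * Real.exp (j * Real.log n) := by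
            rw [← e1]
            gcongr
        _ = Real.exp (Real.log n) * Real.exp (-(3 * (j * Real.log n))) *
              Real.exp (j * Real.log n) := by rw [Real.exp_log hn0]
        _ = Real.exp (Real.log n - 2 * (j * Real.log n)) := by
            rw [← Real.exp_add, ← Real.exp_add]
            congr 1
            ring
        _ < 1 := by
            rw [Real.exp_lt_one_iff]
            nlinarith

lemma card_Alt_le (n : ℕ) (hn : 2 ≤ n) : (Fintype.card (Alt n) : ℝ) ≤ (n : ℝ) ^ n := by
  have h1 : Fintype.card (Alt n) ≤ Fintype.card (Equiv.Perm (Fin n)) :=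
    Fintype.card_subtype_le _
  rw [Fintype.card_perm, Fintype.card_fin] at h1
  exact_mod_cast h1.trans (Nat.factorial_le_pow n)

theorem part_KILLH : CG45.StmtKILLH := by
  intro n r k x t B lam hn hB hlam h2
  have hn0 : (0 : ℝ) < n := by positivity
  have hn2 : (2 : ℝ) ≤ n := by exact_mod_cast hn
  have hlog : 0 < Real.log n := Real.log_pos (by linarith)
  refine gap_of_irr (RR n) x (HH r n) (HH_inv r n) t (B * Real.exp (-lam)) h2
    (fun W _ => ?_)
  have hf : (Module.finrank ℂ W : ℝ) ≤ (n : ℝ) ^ n := by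
    have h3 : Module.finrank ℂ W ≤ Module.finrank ℂ (FA n) := Submodule.finrank_le W
    have h4 : Module.finrank ℂ (FA n) = Fintype.card (Alt n) := finrank_euclideanSpace
    rw [h4] at h3
    exact (by exact_mod_cast h3 : (Module.finrank ℂ W : ℝ) ≤ _).trans (card_Alt_le n hn)
  have e1 : (n : ℝ) ^ n = Real.exp (n * Real.log n) := by
    rw [Real.exp_nat_mul, Real.exp_log hn0]
  have e2 : Real.exp (-lam) ≤ Real.exp (-((n + 3) * Real.log n)) := by
    apply Real.exp_le_exp.2
    linarith
  rcases le_or_gt B 0 with hB0 | hB0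
  · have : B * Real.exp (-lam) * (Module.finrank ℂ W : ℝ) ≤ 0 := by
      have h5 : B * Real.exp (-lam) ≤ 0 :=
        mul_nonpos_of_nonpos_of_nonneg hB0 (Real.exp_pos _).le
      exact mul_nonpos_of_nonpos_of_nonneg h5 (Nat.cast_nonneg _)
    linarith
  · calc B * Real.exp (-lam) * (Module.finrank ℂ W : ℝ)
        ≤ n * Real.exp (-((n + 3) * Real.log n)) * Real.exp (n * Real.log n) := by
          rw [← e1]
          gcongr
      _ = Real.exp (Real.log n) * Real.exp (-((n + 3) * Real.log n)) *
            Real.exp (n * Real.log n) := by rw [Real.exp_log hn0]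
      _ = Real.exp (-(2 * Real.log n)) := by
          rw [← Real.exp_add, ← Real.exp_add]
          congr 1
          ring
      _ < 1 := by
          rw [Real.exp_lt_one_iff]
          linarith

end CG80
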